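import Pool.Agent.ZPK.StmtsF

set_option autoImplicit false

namespace Pool.Agent.ZPK.H19

open Polynomial Pool.Agent.ZPT Pool.Agent.ZP3

theorem lcr (xxf : XxfStmt) (geh : GehStmt) : LcrStmt := by
  intro U hU p hp K _ _ _ _ _ hK Log hLog L hL n b e A g E hB hG i j k hbi hbj hbk hjk hik
  have hpl := hB.pl
  have h11 : 11 ≤ p := by nlinarith [hpl, Nat.zero_le E]
  have h20 : ∀ x, 20 * (e x + 1) < p := by
    intro x
    have h1 := hB.zu.1 x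
    nlinarith [hpl, Nat.zero_le E]
  obtain ⟨g1, g2⟩ := geh p K Log _ n e A g (fun x => (hB.cd x).g1) (fun x hx => (hB.cd x).A0 hx)
    hG b hB.eb
  obtain ⟨M, hM⟩ := xxf U hU p hp h11 K hK L hL n e A g hB.cd h20 b i j k hbi hbj hbk hjk hik
    hB.eb hB.b0 hB.b1 g1 g2 (fun m h1 h2 h3 h4 h5 => hG.low b i j k m hbi hbj hbk hjk hik hB.eb hB.b0
      hB.b1 h1 h2 h3 h4 h5)
  exact ⟨M, fun t q h1 h2 h3 h4 h5 h6 => hM t q h1 h2 h3 h4 h5 h6⟩

end Pool.Agent.ZPK.H19
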