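import Pool.Agent.ZPK.StmtsT

set_option autoImplicit false

namespace Pool.Agent.ZPK.H19

open Polynomial Pool.Agent.ZPT Pool.Agent.ZP3

/-- the functional -/
noncomputable def Lam {K : Type} [NormedField K] {n : ℕ} (lam : Fin n → K) (v : Fin n → ℤ) : K :=
  ∑ i, ((v i : ℤ) : K) * lam i

lemma fi_use {K : Type} [NormedField K] {n : ℕ} {S : Set (Fin n)} {lam : Fin n → K}
    (h : FI S lam) (c d : Fin n → ℤ) (hb : ∀ i, |c i| ≤ 2 ∧ |d i| ≤ 2 ∧ (i ∉ S → c i = 0 ∧ d i = 0))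
    (hn : ∃ i j, c i * d j ≠ c j * d i) (m : ℤ) : ‖Lam lam c - m * Lam lam d‖ = 1 := by
  have h1 := h c d hb hn m
  have e : ∑ i, ((c i - m * d i : ℤ) : K) * lam i = Lam lam c - m * Lam lam d := by
    unfold Lam
    rw [Finset.mul_sum, ← Finset.sum_sub_distrib]
    apply Finset.sum_congr rfl
    intro i _
    push_cast
    ring
  rw [e] at h1
  exact h1

/-- the vector of `u` -/
def xv {n : ℕ} (e : Fin n → ℕ) (e0 : ℕ) (u i : Fin n) : ℤ := if i = u ∧ e u = e0 then 1 else 0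

lemma Lam_xv {K : Type} [NormedField K] {n : ℕ} (e : Fin n → ℕ) (e0 : ℕ) (A : Fin n → ℕ → K)
    (g : Fin n → K) (u : Fin n) :
    Lam (fun i => A i 0 / g i) (xv e e0 u) = lS e0 (e u) (A u) (g u) := by
  unfold Lam lS
  rw [Finset.sum_eq_single u]
  · unfold xv
    by_cases h : e u = e0
    · simp [h]
    · simp [h]
  · intro i _ hi
    unfold xv
    simp [hi]
  · intro h
    exact absurd (Finset.mem_univ u) h

lemma Lam_sub {K : Type} [NormedField K] {n : ℕ} (lam : Fin n → K) (c d : Fin n → ℤ) :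
    Lam lam (fun i => c i - d i) = Lam lam c - Lam lam d := by
  unfold Lam
  rw [← Finset.sum_sub_distrib]
  apply Finset.sum_congr rfl
  intro i _
  push_cast
  ring

lemma Lam_two {K : Type} [NormedField K] {n : ℕ} (lam : Fin n → K) (c : Fin n → ℤ) :
    Lam lam (fun i => 2 * c i) = 2 * Lam lam c := by
  unfold Lam
  rw [Finset.mul_sum]
  apply Finset.sum_congr rfl
  intro i _
  push_cast
  ring

lemma xv01 {n : ℕ} (e : Fin n → ℕ) (e0 : ℕ) (u i : Fin n) :
    (xv e e0 u i = 0 ∨ xv e e0 u i = 1) ∧ (e i ≠ e0 → xv e e0 u i = 0) := by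
  unfold xv
  constructor
  · split_ifs
    · exact Or.inr rfl
    · exact Or.inl rfl
  · intro h
    rw [if_neg]
    rintro ⟨rfl, h2⟩
    exact h h2

/-- the genericity condition -/
lemma gtr_of {K : Type} [NormedField K] {n : ℕ} (e : Fin n → ℕ) (e0 : ℕ) (A : Fin n → ℕ → K)
    (g : Fin n → K) (hFI : FI {i | e i = e0} (fun i => A i 0 / g i)) (j k l : Fin n)
    (hkl : k ≠ l) (hk : e k = e0) (hAk : ‖A k 0 / g k‖ = 1) :
    ‖lS e0 (e k) (A k) (g k) - lS e0 (e l) (A l) (g l)‖ = 1 ∧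
    Gtr (lS e0 (e k) (A k) (g k)) (lS e0 (e l) (A l) (g l)) (lS e0 (e j) (A j) (g j)) := by
  classical
  have fk := Lam_xv e e0 A g k
  have fl := Lam_xv e e0 A g l
  have fj := Lam_xv e e0 A g j
  have bd2 : ∀ (a b c : Fin n), ∀ i, |xv e e0 a i| ≤ 2 ∧ |xv e e0 b i - xv e e0 c i| ≤ 2 ∧
      (i ∉ {i | e i = e0} → xv e e0 a i = 0 ∧ xv e e0 b i - xv e e0 c i = 0) := by
    intro a b c i
    obtain ⟨ha, ha'⟩ := xv01 e e0 a i
    obtain ⟨hb, hb'⟩ := xv01 e e0 b i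
    obtain ⟨hc, hc'⟩ := xv01 e e0 c i
    refine ⟨?_, ?_, ?_⟩
    · rcases ha with h | h <;> rw [h] <;> norm_num
    · rcases hb with h | h <;> rcases hc with h' | h' <;> rw [h, h'] <;> norm_num
    · intro hi
      rw [ha' hi, hb' hi, hc' hi]
      exact ⟨rfl, by norm_num⟩
  have bd3 : ∀ (a d b c : Fin n), ∀ i, |xv e e0 a i - 2 * xv e e0 d i| ≤ 2 ∧
      |xv e e0 b i - xv e e0 c i| ≤ 2 ∧ (i ∉ {i | e i = e0} →
      xv e e0 a i - 2 * xv e e0 d i = 0 ∧ xv e e0 b i - xv e e0 c i = 0) := by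
    intro a d b c i
    obtain ⟨ha, ha'⟩ := xv01 e e0 a i
    obtain ⟨hb, hb'⟩ := xv01 e e0 b i
    obtain ⟨hc, hc'⟩ := xv01 e e0 c i
    obtain ⟨hd, hd'⟩ := xv01 e e0 d i
    refine ⟨?_, ?_, ?_⟩
    · rcases ha with h | h <;> rcases hd with h' | h' <;> rw [h, h'] <;> norm_num
    · rcases hb with h | h <;> rcases hc with h' | h' <;> rw [h, h'] <;> norm_num
    · intro hi
      rw [ha' hi, hb' hi, hc' hi, hd' hi]
      exact ⟨by norm_num, by norm_num⟩
  have xkk : xv e e0 k k = 1 := by unfold xv; rw [if_pos ⟨rfl, hk⟩]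
  have xlk : xv e e0 l k = 0 := by unfold xv; rw [if_neg (fun h => hkl h.1)]
  have xkl : xv e e0 k l = 0 := by unfold xv; rw [if_neg (fun h => hkl h.1.symm)]
  -- the two statements obtained from the condition
  have S1 : ∀ a : Fin n, (∃ i i', xv e e0 a i * (xv e e0 k i' - xv e e0 l i') ≠
      xv e e0 a i' * (xv e e0 k i - xv e e0 l i)) → ∀ m : ℤ,
      ‖lS e0 (e a) (A a) (g a) - m * (lS e0 (e k) (A k) (g k) - lS e0 (e l) (A l) (g l))‖ = 1 := by
    intro a hn m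
    have h := fi_use hFI (xv e e0 a) (fun i => xv e e0 k i - xv e e0 l i) (bd2 a k l) hn m
    rw [Lam_sub, Lam_xv, Lam_xv, Lam_xv] at h
    exact h
  have S2 : ∀ a d : Fin n, (∃ i i', (xv e e0 a i - 2 * xv e e0 d i) *
      (xv e e0 k i' - xv e e0 l i') ≠ (xv e e0 a i' - 2 * xv e e0 d i') *
      (xv e e0 k i - xv e e0 l i)) → ∀ m : ℤ,
      ‖lS e0 (e a) (A a) (g a) - 2 * lS e0 (e d) (A d) (g d) -
        m * (lS e0 (e k) (A k) (g k) - lS e0 (e l) (A l) (g l))‖ = 1 := by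
    intro a d hn m
    have h := fi_use hFI (fun i => xv e e0 a i - 2 * xv e e0 d i)
      (fun i => xv e e0 k i - xv e e0 l i) (bd3 a d k l) hn m
    rw [Lam_sub, Lam_sub, Lam_two, Lam_xv, Lam_xv, Lam_xv, Lam_xv] at h
    exact h
  by_cases hl : e l = e0
  · have xll : xv e e0 l l = 1 := by unfold xv; rw [if_pos ⟨rfl, hl⟩]
    have nk : ∃ i i', xv e e0 k i * (xv e e0 k i' - xv e e0 l i') ≠
        xv e e0 k i' * (xv e e0 k i - xv e e0 l i) := ⟨k, l, by rw [xkk, xkl, xll]; norm_num⟩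
    have nl : ∃ i i', xv e e0 l i * (xv e e0 k i' - xv e e0 l i') ≠
        xv e e0 l i' * (xv e e0 k i - xv e e0 l i) :=
      ⟨l, k, by rw [xkk, xlk, xkl, xll]; norm_num⟩
    have h1 : ‖lS e0 (e k) (A k) (g k) - lS e0 (e l) (A l) (g l)‖ = 1 := by
      have := fi_use hFI (fun i => xv e e0 k i - 2 * xv e e0 l i)
        (fun i => xv e e0 k i - xv e e0 l i) (bd3 k l k l)
        ⟨k, l, by rw [xkk, xkl, xlk, xll]; norm_num⟩ (-1)
      have h2 := S1 l nl (-1)
      have e1 : lS e0 (e l) (A l) (g l) - ((-1 : ℤ) : K) *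
          (lS e0 (e k) (A k) (g k) - lS e0 (e l) (A l) (g l)) = lS e0 (e k) (A k) (g k) := by
        push_cast
        ring
      -- use `c = δ_k - δ_l`, `d = δ_k`
      have h3 := hFI (fun i => xv e e0 k i - xv e e0 l i) (xv e e0 k)
        (fun i => ⟨(bd2 k k l i).2.1, (bd2 k k l i).1, fun hi => ⟨((bd2 k k l i).2.2 hi).2,
          ((bd2 k k l i).2.2 hi).1⟩⟩) ⟨k, l, by rw [xkk, xkl, xlk, xll]; norm_num⟩ 0
      have e3 : ∑ i, (((xv e e0 k i - xv e e0 l i) - 0 * xv e e0 k i : ℤ) : K) * (A i 0 / g i) =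
          Lam (fun i => A i 0 / g i) (fun i => xv e e0 k i - xv e e0 l i) := by
        unfold Lam
        apply Finset.sum_congr rfl
        intro i _
        rw [zero_mul, sub_zero]
      rw [e3, Lam_sub, Lam_xv, Lam_xv] at h3
      exact h3
    refine ⟨h1, ?_⟩
    by_cases hjk : j = k
    · subst hjk
      right; left
      intro m
      exact ⟨S1 j nk m, S2 l j ⟨j, l, by rw [xkk, xlk, xkl, xll]; norm_num⟩ m⟩
    by_cases hjl : j = l
    · subst hjl
      right; left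
      intro m
      exact ⟨S1 j nl m, S2 j j ⟨k, j, by rw [xkk, xlk, xkl, xll]; norm_num⟩ m⟩
    by_cases hj : e j = e0
    · right; left
      intro m
      have xjj : xv e e0 j j = 1 := by unfold xv; rw [if_pos ⟨rfl, hj⟩]
      have xjk : xv e e0 j k = 0 := by unfold xv; rw [if_neg (fun h => hjk h.1.symm)]
      have xkj : xv e e0 k j = 0 := by unfold xv; rw [if_neg (fun h => hjk h.1)]
      have xlj : xv e e0 l j = 0 := by unfold xv; rw [if_neg (fun h => hjl h.1)]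
      exact ⟨S1 j ⟨j, k, by rw [xjj, xkk, xlk, xjk, xkj, xlj]; norm_num⟩ m,
        S2 l j ⟨j, k, by rw [xlj, xjj, xkk, xlk, xjk, xkj]; norm_num⟩ m⟩
    · right; right
      refine ⟨by unfold lS; rw [if_neg hj], Or.inr (Or.inr ?_)⟩
      exact S1 l nl
  · have l0 : lS e0 (e l) (A l) (g l) = 0 := by unfold lS; rw [if_neg hl]
    have xl0 : ∀ i, xv e e0 l i = 0 := by intro i; unfold xv; rw [if_neg (fun h => hl h.2)]
    have k0 : lS e0 (e k) (A k) (g k) = A k 0 / g k := by unfold lS; rw [if_pos hk]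
    refine ⟨by rw [l0, k0, sub_zero]; exact hAk, ?_⟩
    by_cases hjk : j = k
    · subst hjk
      left
      exact ⟨Or.inr l0, Or.inl rfl⟩
    by_cases hjl : j = l
    · subst hjl
      left
      exact ⟨Or.inr l0, Or.inr rfl⟩
    by_cases hj : e j = e0
    · right; left
      intro m
      have xjj : xv e e0 j j = 1 := by unfold xv; rw [if_pos ⟨rfl, hj⟩]
      have xjk : xv e e0 j k = 0 := by unfold xv; rw [if_neg (fun h => hjk h.1.symm)]
      have xkj : xv e e0 k j = 0 := by unfold xv; rw [if_neg (fun h => hjk h.1)]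
      exact ⟨S1 j ⟨j, k, by rw [xjj, xkk, xlk, xjk, xkj, xl0]; norm_num⟩ m,
        S2 l j ⟨j, k, by rw [xl0, xl0, xjj, xkk, xjk, xkj]; norm_num⟩ m⟩
    · right; right
      exact ⟨by unfold lS; rw [if_neg hj], Or.inr (Or.inl l0)⟩

lemma bd_symm {K : Type} [NormedField K] {M : ℕ} {q q' : K} (h : Bd M q q') : Bd M q' q := by
  obtain ⟨i, j, h1, h2, h3, h4, h5⟩ := h
  exact ⟨j, i, h3, h4, h1, h2, h5.symm⟩

lemma dep_symm' {K : Type} [NormedField K] {x y : K} (h1 : Dep x y) : Dep y x := by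
  obtain ⟨a, b, ha, hb, h⟩ := h1
  exact ⟨b, a, hb, ha, h.symm⟩

lemma normp' {p : ℕ} (hp : p.Prime) {K : Type} [NormedField K] [CharZero K] (hK : Ext p K) :
    ‖(p : K)‖ = (p : ℝ)⁻¹ := by
  have := Fact.mk hp
  have h := hK (p : ℚ)
  rw [Rat.cast_natCast] at h
  rw [h, padicNorm.padicNorm_p hp.one_lt]
  push_cast
  rfl

theorem rts (urr : ZP3.URRStmt) (thb : ZP3.THBStmt) (unv : UnvStmt) (num : NumStmt)
    (pbs : PbsStmt) (tps : TpsStmt) (qvf : QvfStmt) (gtf : GtfStmt) : RtsStmt := by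
  intro U hU p E hp hE hpE K _ _ _ _ _ hK Log hLog L hL n e A g hCd heE hG
  have h11 : 11 ≤ p := by nlinarith [hpE, Nat.zero_le E]
  have hp5 : 5 ≤ p := by omega
  have hpK := normp' hp hK
  have hpR : (1 : ℝ) < (p : ℝ) := by exact_mod_cast hp.one_lt
  obtain ⟨_, th0, th1, _, _⟩ := thb p hp hp5
  obtain ⟨n1, n2, n3, n4⟩ := num p E hp hE hpE
  have hUL := (unv p hp K hK L hL).1
  have hrh1 : rh p E < 1 := n3.trans_le (pow_le_one₀ th0.le th1.le)
  have hrh6 : rh p E < th p ^ 6 := n3.trans_le (pow_le_pow_of_le_one th0.le th1.le (by norm_num))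
  have core : ∀ i j k l : Fin n, k ≠ l → 1 ≤ e i → e l ≤ e k → 1 ≤ e k → ∃ M : ℕ,
      ∀ (t : K) (q : Fin n → K), 0 < ‖t‖ → La p (e i) t → Sm p (e j) t → Sm p (e k) t →
      Sm p (e l) t → (∀ u ∈ ({i, j, k, l} : Set (Fin n)), At p U (e u) (A u) (g u) t (q u)) →
      Dep (q i) (q j) → Dep (q k) (q l) → Bd M (q k) (q l) := by
    intro i j k l hkl hei hlk hek
    obtain ⟨M, hM⟩ := pbs U hU p hp hp5 K hK L (e k) (e k) (e l) (A k) (A l) (g k) (g l) (hCd k)
      (hCd l) (max_eq_left hlk).symm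
    refine ⟨M, ?_⟩
    intro t q ht0 hLa hSj hSk hSl hAt hD1 hD2
    have ht1 : ‖t‖ < 1 := by
      by_contra hcon
      have h1 : 1 ≤ ‖t‖ ^ e i := one_le_pow₀ (not_lt.mp hcon)
      have h2 : ‖t‖ ^ e i < (p : ℝ)⁻¹ := hLa
      have h3 : (p : ℝ)⁻¹ < 1 := inv_lt_one_of_one_lt₀ hpR
      linarith
    by_cases hz : ‖(p : K) / t ^ e k‖ < th p
    · exact hM t (q k) (q l) ht0 ht1 hSk hz (hAt k (by simp)) (hAt l (by simp)) hD2
    · exfalso
      rw [not_lt] at hz
      have hzn : ‖(p : K) / t ^ e k‖ = (p : ℝ)⁻¹ / ‖t‖ ^ e k := by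
        rw [norm_div, norm_pow, hpK]
      have hz1 : ‖(p : K) / t ^ e k‖ < 1 := by
        rw [hzn, div_lt_one (by positivity)]
        exact hSk
      have hik : e k < e i := by
        by_contra hcon
        have h1 : ‖t‖ ^ e k ≤ ‖t‖ ^ e i := pow_le_pow_of_le_one ht0.le ht1.le (not_lt.mp hcon)
        have h2 : ‖t‖ ^ e i < (p : ℝ)⁻¹ := hLa
        have h3 : (p : ℝ)⁻¹ < ‖t‖ ^ e k := hSk
        linarith
      have hth2 : th p ^ 2 ≤ (p : ℝ)⁻¹ / ‖t‖ ^ e k := by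
        rw [← hzn]
        refine le_trans ?_ hz
        calc th p ^ 2 ≤ th p ^ 1 := pow_le_pow_of_le_one th0.le th1.le (by norm_num)
          _ = th p := pow_one _
      obtain ⟨ht2, ht3⟩ := (n4 ‖t‖ (e k) ht0 ht1 hek (heE k)).2.2 hth2
      have hjk : e j ≤ e k := by
        by_contra hcon
        have h1 := ht3 (e j) (not_le.mp hcon)
        have h2 : (p : ℝ)⁻¹ < ‖t‖ ^ e j := hSj
        have h3 : 1 < ‖t‖ ^ e j * p := by
          have := mul_lt_mul_of_pos_right h2 (by linarith : (0 : ℝ) < (p : ℝ))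
          rwa [inv_mul_cancel₀ (by linarith : (p : ℝ) ≠ 0)] at this
        linarith
      obtain ⟨ζ, hζ, hζ1, _⟩ := tps U hU p hp hp5 K hK L (e k) (e k) (e l) (A k) (A l) (g k) (g l)
        (hCd k) (hCd l) (max_eq_left hlk).symm hek t (q k) (q l) ht0 ht1 hSk (hAt k (by simp))
        (hAt l (by simp)) hD2
      obtain ⟨a, ha, hQ⟩ := qvf U hU p E hp hE hpE K hK L hL (e k) (e i) (e j) (A i) (A j) (g i)
        (g j) (hCd i) (hCd j) hek hik (heE i) hjk
      obtain ⟨Qv, Qu, X, Y, hX, hY, hXY, hQv, hQu⟩ := hQ t (q i) (q j) ht0 ht1 hSk hz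
        (hAt i (by simp)) (hAt j (by simp)) hD1
      have hAk : ‖A k 0 / g k‖ = 1 := by
        rw [norm_div, (hCd k).A0 hek, (hCd k).g1, div_one]
      obtain ⟨gg1, gg2⟩ := gtr_of e (e k) A g (hG.zero (e k) hek) j k l hkl rfl hAk
      have hLS : ∀ u, Ur p (lS (e k) (e u) (A u) (g u)) := by
        intro u
        unfold lS
        split_ifs with hu
        · apply hUL _ (L.div_mem ((hCd u).An 0) (hCd u).gL)
          rw [norm_div, (hCd u).g1, div_one]
          exact (hCd u).An1 0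
        · have := (urr p hp K hK).2.2.1 0
          simpa using this
      have hgkl : Uu p (g k / g l) := by
        refine ⟨hUL _ (L.div_mem (hCd k).gL (hCd l).gL) ?_, ?_⟩
        · rw [norm_div, (hCd k).g1, (hCd l).g1, div_one]
        · rw [norm_div, (hCd k).g1, (hCd l).g1, div_one]
      have hgj : Uu p (g j) := ⟨hUL _ (hCd j).gL (hCd j).g1.le, (hCd j).g1⟩
      refine gtf p hp h11 K hK Log hLog ((p : K) / t ^ e k) (lS (e k) (e k) (A k) (g k))
        (lS (e k) (e l) (A l) (g l)) (lS (e k) (e j) (A j) (g j)) (g k / g l) a (g j) ζ Qv Qu X Y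
        (rh p E) hrh6 hz hz1 (hLS k) (hLS l) (hLS j) gg1 hgkl ha hgj hζ ?_ hQv hQu hX hY hXY gg2
      refine hζ1.trans ?_
      calc ‖t‖ * ‖(p : K) / t ^ e k‖ ≤ ‖t‖ * 1 := mul_le_mul_of_nonneg_left hz1.le (norm_nonneg _)
        _ ≤ rh p E := by rw [mul_one]; exact ht2
  intro i j k l hkl hei hkl1
  rcases le_total (e l) (e k) with h | h
  · exact core i j k l hkl hei h (by omega)
  · obtain ⟨M, hM⟩ := core i j l k (Ne.symm hkl) hei h (by omega)
    refine ⟨M, ?_⟩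
    intro t q h1 h2 h3 h4 h5 h6 h7 h8
    refine bd_symm (hM t q h1 h2 h3 h5 h4 ?_ h7 (dep_symm' h8))
    intro u hu
    apply h6
    rcases hu with h | h | h | h
    · exact Or.inl h
    · exact Or.inr (Or.inl h)
    · exact Or.inr (Or.inr (Or.inr h))
    · exact Or.inr (Or.inr (Or.inl h))

end Pool.Agent.ZPK.H19
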