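import Pool.Agent.ZPK.StmtsX

set_option autoImplicit false

namespace Pool.Agent.ZPK.H19

open Polynomial Pool.Agent.ZPT Pool.Agent.ZP3

section ultra

variable {K : Type} [NormedField K] [IsUltrametricDist K]

lemma nsub {x y : K} {r : ℝ} (hx : ‖x‖ ≤ r) (hy : ‖y‖ ≤ r) : ‖x - y‖ ≤ r := by
  rw [sub_eq_add_neg]
  exact (IsUltrametricDist.norm_add_le_max x (-y)).trans (max_le hx (by rw [norm_neg]; exact hy))

lemma nadd {x y : K} {r : ℝ} (hx : ‖x‖ ≤ r) (hy : ‖y‖ ≤ r) : ‖x + y‖ ≤ r :=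
  (IsUltrametricDist.norm_add_le_max x y).trans (max_le hx hy)

lemma naddlt {x y : K} {r : ℝ} (hx : ‖x‖ < r) (hy : ‖y‖ < r) : ‖x + y‖ < r :=
  (IsUltrametricDist.norm_add_le_max x y).trans_lt (max_lt hx hy)

lemma nsublt {x y : K} {r : ℝ} (hx : ‖x‖ < r) (hy : ‖y‖ < r) : ‖x - y‖ < r := by
  rw [sub_eq_add_neg]
  exact naddlt hx (by rw [norm_neg]; exact hy)

lemma one_of_close {x y : K} (h : ‖x - y‖ < 1) (hy : ‖y‖ = 1) : ‖x‖ = 1 := by
  have h1 : x = (x - y) + y := by ring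
  have h2 : ‖x - y‖ ≠ ‖y‖ := by rw [hy]; exact h.ne
  rw [h1, IsUltrametricDist.norm_add_eq_max_of_norm_ne_norm h2, hy]
  exact max_eq_right h.le

/-- quotients of close units -/
lemma quot {κ κ' N N' a a' : K} {ρ : ℝ} (hρ : ρ < 1) (hκ : ‖κ‖ = 1) (hκ' : ‖κ'‖ = 1)
    (hN : ‖N - a‖ ≤ ρ) (hN' : ‖N' - a'‖ ≤ ρ) (ha : ‖a‖ = 1) (ha' : ‖a'‖ = 1) :
    ‖κ * N / (κ' * N') - κ * a / (κ' * a')‖ ≤ ρ := by
  have hN1 : ‖N'‖ = 1 := one_of_close (hN'.trans_lt hρ) ha'
  have z1 : κ' ≠ 0 := by intro h; rw [h, norm_zero] at hκ'; exact zero_ne_one hκ'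
  have z2 : N' ≠ 0 := by intro h; rw [h, norm_zero] at hN1; exact zero_ne_one hN1
  have z3 : a' ≠ 0 := by intro h; rw [h, norm_zero] at ha'; exact zero_ne_one ha'
  have e : κ * N / (κ' * N') - κ * a / (κ' * a') =
      κ * ((N - a) * a' - a * (N' - a')) / (κ' * N' * a') := by
    field_simp
    ring
  rw [e, norm_div, norm_mul, norm_mul, norm_mul, hκ, hκ', hN1, ha', one_mul, one_mul, one_mul,
    div_one]
  apply nsub
  · rw [norm_mul, ha', mul_one]; exact hN
  · rw [norm_mul, ha, one_mul]; exact hN'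

lemma quot_lt {κ κ' N N' a a' : K} (hκ : ‖κ‖ = 1) (hκ' : ‖κ'‖ = 1)
    (hN : ‖N - a‖ < 1) (hN' : ‖N' - a'‖ < 1) (ha : ‖a‖ = 1) (ha' : ‖a'‖ = 1) :
    ‖κ * N / (κ' * N') - κ * a / (κ' * a')‖ < 1 := by
  have h := quot (ρ := max ‖N - a‖ ‖N' - a'‖) (max_lt hN hN') hκ hκ' (le_max_left _ _)
    (le_max_right _ _) ha ha'
  exact h.trans_lt (max_lt hN hN')

end ultra

lemma ro_norm {K : Type} [NormedField K] {x : K} {M : ℕ} (hM : 1 ≤ M) (h : x ^ M = 1) :
    ‖x‖ = 1 := by
  have h1 : ‖x‖ ^ M = 1 := by rw [← norm_pow, h, norm_one]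
  exact (pow_eq_one_iff_of_nonneg (norm_nonneg _) (by omega)).mp h1

/-- tame roots of unity in finitely many residue discs -/
lemma tf (wtm : ZP3.WTMStmt) {p : ℕ} (hp : p.Prime) {K : Type} [NormedField K] [CharZero K]
    [IsUltrametricDist K] (hK : Ext p K) (S : Finset K) :
    ∃ M : ℕ, 1 ≤ M ∧ ∀ ζ : K, Tame p ζ → (∃ a ∈ S, ‖ζ - a‖ < 1) → ζ ^ M = 1 := by
  classical
  induction S using Finset.induction_on with
  | empty => exact ⟨1, le_rfl, fun ζ _ h => by obtain ⟨a, ha, _⟩ := h; exact absurd ha (Finset.notMem_empty a)⟩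
  | insert a S ha ih =>
    obtain ⟨M, hM, h⟩ := ih
    by_cases hz : ∃ z : K, Tame p z ∧ ‖z - a‖ < 1
    · obtain ⟨z, ⟨M₀, hM₀, hp₀, hz₀⟩, hza⟩ := hz
      refine ⟨M₀ * M, Nat.mul_pos hM₀ hM, ?_⟩
      intro ζ hζ hex
      obtain ⟨c, hc, hcζ⟩ := hex
      rcases Finset.mem_insert.mp hc with rfl | hc
      · have hn := ro_norm hM₀ hz₀
        have hz0 : z ≠ 0 := by intro h0; rw [h0, norm_zero] at hn; exact zero_ne_one hn
        obtain ⟨M₁, hM₁, hp₁, hz₁⟩ := hζ
        have ht : Tame p (ζ / z) := by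
          refine ⟨M₁ * M₀, Nat.mul_pos hM₁ hM₀, ?_, ?_⟩
          · intro hd
            rcases hp.dvd_mul.mp hd with h1 | h1
            · exact hp₁ h1
            · exact hp₀ h1
          · rw [div_pow, pow_mul, hz₁, one_pow, mul_comm M₁ M₀, pow_mul, hz₀, one_pow, div_one]
        have hcl : ‖ζ / z - 1‖ < 1 := by
          have e : ζ / z - 1 = ((ζ - c) - (z - c)) / z := by field_simp; ring
          rw [e, norm_div, hn, div_one]
          exact nsublt hcζ hza
        have h1 := wtm p hp K hK (ζ / z) ht hcl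
        have h2 : ζ = z := by
          field_simp at h1
          exact h1
        rw [h2, pow_mul, hz₀, one_pow]
      · rw [mul_comm, pow_mul, h ζ hζ ⟨c, hc, hcζ⟩, one_pow]
    · refine ⟨M, hM, ?_⟩
      intro ζ hζ hex
      obtain ⟨c, hc, hcζ⟩ := hex
      rcases Finset.mem_insert.mp hc with rfl | hc
      · exact absurd ⟨ζ, hζ, hcζ⟩ hz
      · exact h ζ hζ ⟨c, hc, hcζ⟩

lemma normp {p : ℕ} (hp : p.Prime) {K : Type} [NormedField K] [CharZero K] (hK : Ext p K) :
    ‖(p : K)‖ = (p : ℝ)⁻¹ := by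
  have := Fact.mk hp
  have h := hK (p : ℚ)
  rw [Rat.cast_natCast] at h
  rw [h, padicNorm.padicNorm_p hp.one_lt]
  push_cast
  rfl

lemma rx_pos {E e' : ℕ} (hE : 1 ≤ E) : 1 ≤ rx E e' := by
  unfold rx; split_ifs <;> omega

lemma sx_pos {E e' : ℕ} (hE : 1 ≤ E) : 1 ≤ sx E e' := by
  unfold sx; split_ifs <;> omega

lemma rx_le {E e' p : ℕ} (_hE : E < p) (he : e' < p) : rx E e' ≤ p := by
  unfold rx; split_ifs <;> omega

lemma sx_le {E e' p : ℕ} (hE : E < p) (he : e' < p) : sx E e' ≤ p := by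
  unfold sx; split_ifs <;> omega

/-- the quotient of the normalised parameters is a root of unity -/
lemma ro_pair (xdp : XdpStmt) (dep : ZP3.DEPStmt) {p : ℕ} (hp : p.Prime) {K : Type}
    [NormedField K] [CharZero K] (hK : Ext p K) {E ex ey : ℕ} (hE : 1 ≤ E)
    {κ κ' N N' q q' : K} (hκ : ‖κ‖ = 1) (hκ' : ‖κ'‖ = 1) (hN : ‖N‖ = 1) (hN' : ‖N'‖ = 1)
    (hq : q ≠ 0) (hq' : q' ≠ 0)
    (h1 : (κ * N / p) ^ rx E ex * q ^ sx E ex = 1) (h2 : (κ' * N' / p) ^ rx E ey * q' ^ sx E ey = 1)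
    (hd : Dep q q') : Ro (κ * N / (κ' * N')) := by
  have hpK := normp hp hK
  have hp0 : (p : K) ≠ 0 := by exact_mod_cast hp.ne_zero
  have hpR : (1 : ℝ) < (p : ℝ) := by exact_mod_cast hp.one_lt
  obtain ⟨⟨a, b, ha, hb, hab⟩⟩ : Nonempty (∃ a b : ℕ, 1 ≤ a ∧ 1 ≤ b ∧
      (κ * N / p) ^ a = (κ' * N' / p) ^ b) :=
    ⟨(xdp K q q' (κ * N / p) (κ' * N' / p) _ _ _ _ hq hq' (rx_pos hE) (sx_pos hE) (rx_pos hE)
      (sx_pos hE) h1 h2).1 hd⟩
  have n1 : ‖κ * N / (p : K)‖ = p := by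
    rw [norm_div, norm_mul, hκ, hN, hpK, one_mul, one_div, inv_inv]
  have n2 : ‖κ' * N' / (p : K)‖ = p := by
    rw [norm_div, norm_mul, hκ', hN', hpK, one_mul, one_div, inv_inv]
  have z0 : κ' * N' / (p : K) ≠ 0 := by
    intro h; rw [h, norm_zero] at n2; rw [← n2] at hpR; linarith
  have h := (dep K (κ * N / p) (κ' * N' / p) (κ' * N' / p) a b 1 1 z0
    (by rw [n2]; exact hpR.ne') ha hb le_rfl le_rfl hab rfl).2.1 (by rw [n1, n2])
  have e : κ * N / (p : K) / (κ' * N' / p) = κ * N / (κ' * N') := by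
    field_simp
  rw [e] at h
  exact h

/-- bounded order gives bounded isogeny -/
lemma bd_pair (xdp : XdpStmt) {p : ℕ} (hp : p.Prime) {K : Type}
    [NormedField K] [CharZero K] {E ex ey M : ℕ} (hE : 1 ≤ E) (hEp : E < p)
    (hex : ex < p) (hey : ey < p) {κ κ' N N' q q' : K} (hq : q ≠ 0) (hq' : q' ≠ 0)
    (h1 : (κ * N / p) ^ rx E ex * q ^ sx E ex = 1) (h2 : (κ' * N' / p) ^ rx E ey * q' ^ sx E ey = 1)
    (hM : 1 ≤ M) (h : (κ * N / (κ' * N')) ^ M = 1) : Bd (p * p * M) q q' := by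
  have hp0 : (p : K) ≠ 0 := by exact_mod_cast hp.ne_zero
  have e : κ * N / (p : K) / (κ' * N' / p) = κ * N / (κ' * N') := by
    by_cases hz : κ' * N' = 0
    · rw [hz]; simp
    · field_simp
  have h3 := (xdp K q q' (κ * N / p) (κ' * N' / p) _ _ _ _ hq hq' (rx_pos hE) (sx_pos hE)
    (rx_pos hE) (sx_pos hE) h1 h2).2 M hM (by rw [e]; exact h)
  refine ⟨_, _, ?_, ?_, ?_, ?_, h3⟩
  · exact Nat.mul_pos (Nat.mul_pos (sx_pos hE) (rx_pos hE)) hM
  · exact Nat.mul_le_mul_right _ (Nat.mul_le_mul (sx_le hEp hex) (rx_le hEp hey))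
  · exact Nat.mul_pos (Nat.mul_pos (sx_pos hE) (rx_pos hE)) hM
  · exact Nat.mul_le_mul_right _ (Nat.mul_le_mul (sx_le hEp hey) (rx_le hEp hex))

lemma dep_trans {K : Type} [NormedField K] {x y z : K} (h1 : Dep x y) (h2 : Dep y z) :
    Dep x z := by
  obtain ⟨a, b, ha, hb, h⟩ := h1
  obtain ⟨c, d, hc, hd, h'⟩ := h2
  refine ⟨a * c, d * b, Nat.mul_pos ha hc, Nat.mul_pos hd hb, ?_⟩
  rw [pow_mul, h, ← pow_mul, mul_comm b c, pow_mul, h', ← pow_mul]

lemma dep_symm {K : Type} [NormedField K] {x y : K} (h1 : Dep x y) : Dep y x := by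
  obtain ⟨a, b, ha, hb, h⟩ := h1
  exact ⟨b, a, hb, ha, h.symm⟩

/-- the size of `t` -/
lemma tsize (thb : ZP3.THBStmt) {p : ℕ} (hp : p.Prime) (h5 : 5 ≤ p) {E : ℕ} (hE : 1 ≤ E)
    (h6 : 6 * E + 1 < p) {x : ℝ} (hx : 0 ≤ x) (h : x ^ E = (p : ℝ)⁻¹) :
    x = ((p : ℝ) ^ (-(1 : ℝ) / (2 * (E : ℝ)))) ^ 2 ∧ x < th p ^ 6 := by
  obtain ⟨_, _, _, _, h4⟩ := thb p hp h5
  have hpR : (0 : ℝ) < (p : ℝ) := by exact_mod_cast hp.pos
  have hE0 : (E : ℝ) ≠ 0 := by
    have : E ≠ 0 := by omega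
    exact_mod_cast this
  set r : ℝ := (p : ℝ) ^ (-(1 : ℝ) / (2 * (E : ℝ))) with hr
  have hr0 : 0 < r := Real.rpow_pos_of_pos hpR _
  have h1 : (r ^ 2) ^ E = (p : ℝ)⁻¹ := by
    rw [← pow_mul, hr, ← Real.rpow_natCast, ← Real.rpow_mul hpR.le]
    have : -(1 : ℝ) / (2 * (E : ℝ)) * ((2 * E : ℕ) : ℝ) = -1 := by
      push_cast
      field_simp
    rw [this, Real.rpow_neg_one]
  have h2 : x = r ^ 2 := by
    exact (pow_left_inj₀ hx (by positivity) (by omega)).mp (h.trans h1.symm)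
  refine ⟨h2, ?_⟩
  rw [h2]
  have h3 := h4 E hE h6
  calc r ^ 2 < (th p ^ 3) ^ 2 := by
        apply pow_lt_pow_left₀ h3 hr0.le (by norm_num)
    _ = th p ^ 6 := by ring

lemma natnorm {p : ℕ} (hp : p.Prime) {K : Type} [NormedField K] [CharZero K] (hK : Ext p K)
    {a : ℕ} (h1 : 1 ≤ a) (h2 : a < p) : ‖(a : K)‖ = 1 := by
  have := Fact.mk hp
  have h := hK (a : ℚ)
  rw [Rat.cast_natCast] at h
  rw [h]
  have h3 : ¬ p ∣ a := fun hd => absurd (Nat.le_of_dvd h1 hd) (by omega)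
  have h4 := (padicNorm.nat_eq_one_iff (p := p) a).mpr h3
  rw [h4]
  norm_num

lemma mu_le {p : ℕ} (hp : p.Prime) {K : Type} [NormedField K] [CharZero K] (hK : Ext p K)
    {L : Subfield K} {E e' : ℕ} {A : ℕ → K} {g : K} (h : Cd L e' A g) (hE : 1 ≤ E) (hEp : E < p)
    (hep : e' < p) (m : ℕ) : ‖Mu E e' A m‖ ≤ 1 := by
  unfold Mu
  split_ifs with c1 c2 c3
  · exact h.An1 _
  · rw [norm_zero]; exact zero_le_one
  · exact h.An1 _
  · have e1 : 1 ≤ e' := by omega
    rw [norm_div, norm_mul, norm_div, natnorm hp hK hE hEp, natnorm hp hK e1 hep, h.A0 e1]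
    simpa using h.An1 m

lemma nu_le {p : ℕ} (hp : p.Prime) {K : Type} [NormedField K] [CharZero K] (hK : Ext p K)
    {L : Subfield K} {E e' : ℕ} {A : ℕ → K} {g : K} (h : Cd L e' A g) (hE : 1 ≤ E) (hEp : E < p)
    (hep : e' < p) (m : ℕ) : ‖Nu E e' A g m‖ ≤ 1 := by
  unfold Nu
  split_ifs with c1
  · have e1 : 1 ≤ e' := by omega
    rw [norm_div, norm_mul, norm_div, natnorm hp hK hE hEp, natnorm hp hK e1 hep, h.A0 e1, h.g1]
    norm_num
  · rw [norm_zero]; exact zero_le_one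

lemma sg_le {K : Type} [NormedField K] {E e' : ℕ} : ‖(Sg E e' : K)‖ ≤ 1 := by
  unfold Sg
  split_ifs
  · rw [norm_one]
  · rw [norm_zero]; exact zero_le_one

lemma cases4 {n : ℕ} {b i j k : Fin n} {P : Fin n → Prop} (h : ∀ x ∈ ({b, i, j, k} : Set (Fin n)), P x) :
    ∀ s : Fin 4, P (![b, i, j, k] s) := by
  intro s
  fin_cases s
  · exact h b (by simp)
  · exact h i (by simp)
  · exact h j (by simp)
  · exact h k (by simp)

theorem xxf (xdp : XdpStmt) (xnf : XnfStmt) (xwi : XwiStmt) (xze : XzeStmt) (xlo : XloStmt)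
    (xra : XraStmt) (dep : ZP3.DEPStmt) (fin : FinStmt) (gnr : ZP3.GNRStmt) (wtm : ZP3.WTMStmt)
    (urr : ZP3.URRStmt) (thb : ZP3.THBStmt) (log : LogStmt) : XxfStmt := by
  classical
  intro U hU p hp h11 K _ _ _ _ _ hK L hL n e A g hCd h20 b i j k hbi hbj hbk hjk hik hE hA1 hA0
    h1 h2 h3
  have hp5 : 5 ≤ p := by omega
  have hEp : e b < p := by have := h20 b; omega
  have hep : ∀ x, e x < p := fun x => by have := h20 x; omega
  have h6 : 6 * e b + 1 < p := by have := h20 b; omega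
  have hpK := normp hp hK
  have hp0 : (p : K) ≠ 0 := by exact_mod_cast hp.ne_zero
  have hpR : (1 : ℝ) < (p : ℝ) := by exact_mod_cast hp.one_lt
  obtain ⟨urr1, _, urr3, urr4, urr5⟩ := urr p hp K hK
  obtain ⟨_, th0, th1, th3, _⟩ := thb p hp hp5
  have th6 : th p ^ 6 < 1 := pow_lt_one₀ th0.le th1 (by norm_num)
  have th63 : th p ^ 6 ≤ th p ^ 3 := pow_le_pow_of_le_one th0.le th1.le (by norm_num)
  obtain ⟨Log, hLog⟩ := log p hp K hK
  have ur0 : Ur p (0 : K) := by simpa using urr3 0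
  have ur1 : Ur p (1 : K) := by simpa using urr3 1
  have urL : ∀ x ∈ L, ‖x‖ ≤ 1 → Ur p x := by
    obtain ⟨F, hF, h⟩ := hL
    exact fun x hx hn => ⟨hn, F, hF, h x hx hn⟩
  have gn : ∀ x, ‖g x‖ = 1 := fun x => (hCd x).g1
  have an : ∀ x, e b = e x → ‖A x 0‖ = 1 := fun x hx => (hCd x).A0 (by omega)
  obtain ⟨G, hGd⟩ : ∃ G : Fin n → K, ∀ x, G x = Gf (e b) (e x) (g x) := ⟨_, fun _ => rfl⟩
  obtain ⟨B, hBd⟩ : ∃ B : Fin n → K, ∀ x, B x = Bf (e b) (e x) (A x) := ⟨_, fun _ => rfl⟩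
  have Glt : ∀ x, e x < e b → G x = g x ∧ B x = 0 := by
    intro x hx
    rw [hGd, hBd]
    unfold Gf Bf
    rw [if_pos hx.le, if_pos hx]
    exact ⟨rfl, rfl⟩
  have Geq : ∀ x, e x = e b → G x = g x ∧ B x = A x 0 := by
    intro x hx
    rw [hGd, hBd]
    unfold Gf Bf
    rw [if_pos hx.le, if_neg (by omega), if_pos hx]
    exact ⟨rfl, rfl⟩
  have Ggt : ∀ x, e b < e x → G x = 0 ∧ B x = 1 := by
    intro x hx
    rw [hGd, hBd]
    unfold Gf Bf
    rw [if_neg (by omega), if_neg (by omega), if_neg (by omega)]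
    exact ⟨rfl, rfl⟩
  have hG : ∀ x, Ur p (G x) := by
    intro x
    rcases lt_trichotomy (e x) (e b) with h | h | h
    · rw [(Glt x h).1]; exact urL _ (hCd x).gL (gn x).le
    · rw [(Geq x h).1]; exact urL _ (hCd x).gL (gn x).le
    · rw [(Ggt x h).1]; exact ur0
  have hB : ∀ x, Ur p (B x) := by
    intro x
    rcases lt_trichotomy (e x) (e b) with h | h | h
    · rw [(Glt x h).2]; exact ur0
    · rw [(Geq x h).2]; exact urL _ ((hCd x).An 0) ((hCd x).An1 0)
    · rw [(Ggt x h).2]; exact ur1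
  have hd : ∀ x y, x ≠ y → ¬ (e x < e b ∧ e y < e b) → ¬ (e b < e x ∧ e b < e y) →
      ‖G x * B y - G y * B x‖ = 1 := by
    intro x y hxy c1 c2
    rcases lt_trichotomy (e x) (e b) with h | h | h <;>
      rcases lt_trichotomy (e y) (e b) with h' | h' | h'
    · exact absurd ⟨h, h'⟩ c1
    · rw [(Glt x h).1, (Glt x h).2, (Geq y h').2, mul_zero, sub_zero, norm_mul, gn,
        an y h'.symm, one_mul]
    · rw [(Glt x h).1, (Glt x h).2, (Ggt y h').2, mul_zero, sub_zero, mul_one, gn]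
    · rw [(Geq x h).2, (Glt y h').1, (Glt y h').2, mul_zero, zero_sub, norm_neg, norm_mul, gn,
        an x h.symm, one_mul]
    · rw [(Geq x h).1, (Geq x h).2, (Geq y h').1, (Geq y h').2]
      exact h1 x y hxy h h'
    · rw [(Geq x h).1, (Ggt y h').1, (Ggt y h').2, zero_mul, sub_zero, mul_one, gn]
    · rw [(Glt y h').1, (Glt y h').2, (Ggt x h).2, mul_zero, zero_sub, norm_neg, mul_one, gn]
    · rw [(Ggt x h).1, (Ggt x h).2, (Geq y h').1, zero_mul, zero_sub, norm_neg, mul_one, gn]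
    · exact absurd ⟨h, h'⟩ c2
  have X := fun x : Fin n => xnf U hU p hp hp5 K hK L hL (e b) (e x) (A x) (g x) (hCd x) hE hEp
    (hep x)
  choose κ hκ hXN using X
  have κn : ∀ x, ‖κ x‖ = 1 := fun x => (hκ x).2
  -- the exponent `m`
  obtain ⟨m, hm1, hmE, hmin, hmP⟩ : ∃ m : ℕ, 1 ≤ m ∧ m ≤ e b ∧
      (∀ m', 1 ≤ m' → m' < m → ∀ x ∈ ({b, i, j, k} : Set (Fin n)),
        Mu (e b) (e x) (A x) m' = 0 ∧ Nu (e b) (e x) (A x) (g x) m' = 0) ∧
      (m < e b → ∃ x ∈ ({i, j, k} : Set (Fin n)), Mu (e b) (e x) (A x) m ≠ 0 ∨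
        Nu (e b) (e x) (A x) (g x) m ≠ 0) := by
    have bb0 : ∀ m', 1 ≤ m' → Mu (e b) (e b) (A b) m' = 0 ∧ Nu (e b) (e b) (A b) (g b) m' = 0 := by
      intro m' hm'
      unfold Mu Nu
      rw [if_neg (lt_irrefl _), if_pos rfl, if_neg (fun h => lt_irrefl _ h.1)]
      exact ⟨hA0 m' hm', rfl⟩
    have cov : ∀ m', 1 ≤ m' → ¬ (∃ x ∈ ({i, j, k} : Set (Fin n)), Mu (e b) (e x) (A x) m' ≠ 0 ∨
        Nu (e b) (e x) (A x) (g x) m' ≠ 0) → ∀ x ∈ ({b, i, j, k} : Set (Fin n)),
        Mu (e b) (e x) (A x) m' = 0 ∧ Nu (e b) (e x) (A x) (g x) m' = 0 := by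
      intro m' hm' hno x hx
      rcases hx with rfl | hx
      · exact bb0 m' hm'
      · by_contra hcon
        exact hno ⟨x, hx, by tauto⟩
    by_cases hex : ∃ m', 1 ≤ m' ∧ m' < e b ∧ (∃ x ∈ ({i, j, k} : Set (Fin n)),
        Mu (e b) (e x) (A x) m' ≠ 0 ∨ Nu (e b) (e x) (A x) (g x) m' ≠ 0)
    · refine ⟨Nat.find hex, (Nat.find_spec hex).1, (Nat.find_spec hex).2.1.le, ?_,
        fun _ => (Nat.find_spec hex).2.2⟩
      intro m' hm' hlt
      have hnot := Nat.find_min hex hlt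
      refine cov m' hm' (fun hx => hnot ⟨hm', ?_, hx⟩)
      exact hlt.trans (Nat.find_spec hex).2.1
    · refine ⟨e b, hE, le_rfl, ?_, fun h => absurd h (lt_irrefl _)⟩
      intro m' hm' hlt
      exact cov m' hm' (fun hx => hex ⟨m', hm', hlt, hx⟩)
  -- facts about a point
  have pt : ∀ (t : K) (q : Fin n → K), 0 < ‖t‖ → ‖t‖ < 1 → ‖t‖ ^ e b = (p : ℝ)⁻¹ →
      (∀ x ∈ ({b, i, j, k} : Set (Fin n)), At p U (e x) (A x) (g x) t (q x)) →
      ∃ (w : K) (N : Fin n → K), ‖w‖ = 1 ∧ w = (p : K) / t ^ e b ∧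
        ∀ x ∈ ({b, i, j, k} : Set (Fin n)),
          (κ x * N x / p) ^ rx (e b) (e x) * q x ^ sx (e b) (e x) = 1 ∧
          ‖N x - (G x + B x * w)‖ ≤ ‖t‖ ∧
          (‖G x + B x * w‖ = 1 → ‖N x - (G x + B x * w + t ^ m * (Mu (e b) (e x) (A x) m * w +
            Nu (e b) (e x) (A x) (g x) m) - Sg (e b) (e x) * p *
            ((PowerSeries.coeff 1 U : ℚ) : K))‖ ≤ ‖t‖ ^ (m + 1)) := by
    intro t q ht0 ht1 htE hAt
    have hw : ‖(p : K) / t ^ e b‖ = 1 := by
      rw [norm_div, norm_pow, htE, hpK]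
      exact div_self (by positivity)
    have hN' : ∀ x : Fin n, ∃ N : K, x ∈ ({b, i, j, k} : Set (Fin n)) →
          (κ x * N / p) ^ rx (e b) (e x) * q x ^ sx (e b) (e x) = 1 ∧
          ‖N - (G x + B x * ((p : K) / t ^ e b))‖ ≤ ‖t‖ ∧
          (‖G x + B x * ((p : K) / t ^ e b)‖ = 1 →
            ‖N - (G x + B x * ((p : K) / t ^ e b) +
            t ^ m * (Mu (e b) (e x) (A x) m * ((p : K) / t ^ e b) +
            Nu (e b) (e x) (A x) (g x) m) - Sg (e b) (e x) * p *
            ((PowerSeries.coeff 1 U : ℚ) : K))‖ ≤ ‖t‖ ^ (m + 1)) := by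
      intro x
      by_cases hx : x ∈ ({b, i, j, k} : Set (Fin n))
      · obtain ⟨N, hN⟩ := hXN x m t _ (q x) hm1 hmE (fun m' a1 a2 => hmin m' a1 a2 x hx) htE rfl
          (hAt x hx)
        refine ⟨N, fun _ => ?_⟩
        rw [hGd, hBd]
        exact hN
      · exact ⟨0, fun h => absurd h hx⟩
    choose N hN using hN'
    exact ⟨_, N, hw, rfl, hN⟩
  have mb : b ∈ ({b, i, j, k} : Set (Fin n)) := by simp
  have mi : i ∈ ({b, i, j, k} : Set (Fin n)) := by simp
  have mj : j ∈ ({b, i, j, k} : Set (Fin n)) := by simp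
  have mk : k ∈ ({b, i, j, k} : Set (Fin n)) := by simp
  by_cases c1 : (e j < e b ∧ e k < e b) ∨ (e b < e j ∧ e b < e k)
  · -- case 1
    obtain ⟨M, hM, hfin⟩ := fin p hp (by omega) K hK
      {κ j * g j / (κ k * g k), κ j * 1 / (κ k * 1)} (th p ^ 6) th6
    refine ⟨p * p * M, ?_⟩
    intro t q ht0 ht1 htE hAt hDbi hDjk
    obtain ⟨htv, ht6⟩ := tsize thb hp hp5 hE h6 ht0.le htE
    obtain ⟨w, N, hw, hwd, hN⟩ := pt t q ht0 ht1 htE hAt
    obtain ⟨a, ha, haS, hja, hka⟩ : ∃ a : K × K, (‖a.1‖ = 1 ∧ ‖a.2‖ = 1) ∧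
        (κ j * a.1 / (κ k * a.2) = κ j * g j / (κ k * g k) ∨
          κ j * a.1 / (κ k * a.2) = κ j * 1 / (κ k * 1)) ∧
        G j + B j * w = a.1 ∧ G k + B k * w = a.2 := by
      rcases c1 with ⟨c1, c2⟩ | ⟨c1, c2⟩
      · refine ⟨(g j, g k), ⟨gn j, gn k⟩, Or.inl rfl, ?_, ?_⟩
        · rw [(Glt j c1).1, (Glt j c1).2, zero_mul, add_zero]
        · rw [(Glt k c2).1, (Glt k c2).2, zero_mul, add_zero]
      · refine ⟨(w, w), ⟨hw, hw⟩, Or.inr ?_, ?_, ?_⟩
        · have hw0 : w ≠ 0 := by intro h; rw [h, norm_zero] at hw; exact zero_ne_one hw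
          show κ j * w / (κ k * w) = κ j * 1 / (κ k * 1)
          rw [mul_div_mul_right _ _ hw0, mul_one, mul_one]
        · rw [(Ggt j c1).1, (Ggt j c1).2, one_mul, zero_add]
        · rw [(Ggt k c2).1, (Ggt k c2).2, one_mul, zero_add]
    have n1 := (hN j mj).2.1
    have n2 := (hN k mk).2.1
    rw [hja] at n1
    rw [hka] at n2
    have hq := quot ht1 (κn j) (κn k) n1 n2 ha.1 ha.2
    have hro := ro_pair xdp dep hp hK hE (κn j) (κn k) (one_of_close (n1.trans_lt ht1) ha.1)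
      (one_of_close (n2.trans_lt ht1) ha.2)
      (by intro h; have := (hAt j mj).q0; rw [h, norm_zero] at this; exact lt_irrefl _ this)
      (by intro h; have := (hAt k mk).q0; rw [h, norm_zero] at this; exact lt_irrefl _ this)
      (hN j mj).1 (hN k mk).1 hDjk
    have hbound := hfin _ hro (by
      refine ⟨κ j * a.1 / (κ k * a.2), ?_, hq.trans ht6.le⟩
      rw [Finset.mem_insert, Finset.mem_singleton]
      exact haS)
    right; left
    exact bd_pair xdp hp hE hEp (hep j) (hep k)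
      (by intro h; have := (hAt j mj).q0; rw [h, norm_zero] at this; exact lt_irrefl _ this)
      (by intro h; have := (hAt k mk).q0; rw [h, norm_zero] at this; exact lt_irrefl _ this)
      (hN j mj).1 (hN k mk).1 hM hbound
  · -- cases 2 and 3
    have cj : ¬ (e j < e b ∧ e k < e b) := fun h => c1 (Or.inl h)
    have ck : ¬ (e b < e j ∧ e b < e k) := fun h => c1 (Or.inr h)
    have nb1 : ∀ x, ¬ (e b < e b ∧ e x < e b) := fun x h => lt_irrefl _ h.1
    have nb2 : ∀ x, ¬ (e b < e b ∧ e b < e x) := fun x h => lt_irrefl _ h.1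
    have dbi := hd b i hbi (nb1 i) (nb2 i)
    have dbj := hd b j hbj (nb1 j) (nb2 j)
    have dbk := hd b k hbk (nb1 k) (nb2 k)
    have djk := hd j k hjk cj ck
    have hu1 : ‖((PowerSeries.coeff 1 U : ℚ) : K)‖ ≤ 1 := by
      rw [hK]
      exact_mod_cast hU.pint p hp hp5 1
    obtain ⟨M2, hM2, hfin⟩ := fin p hp (by omega) K hK
      (Finset.univ.image (fun v : Fin n × Fin n × Fin n =>
        κ v.2.1 * (G v.2.1 - B v.2.1 * G v.1 / B v.1) /
          (κ v.2.2 * (G v.2.2 - B v.2.2 * G v.1 / B v.1)))) (th p) th1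
    obtain ⟨M3, hM3, hM3b⟩ : ∃ M3 : ℕ, 1 ≤ M3 ∧ ∀ (t w : K) (N : Fin n → K),
        ‖t‖ ^ e b = (p : ℝ)⁻¹ → ‖t‖ < 1 → 0 < ‖t‖ → ‖w‖ = 1 → w = (p : K) / t ^ e b →
        (∀ x ∈ ({b, i, j, k} : Set (Fin n)), ‖G x + B x * w‖ = 1) →
        (∀ x ∈ ({b, i, j, k} : Set (Fin n)), ‖N x - (G x + B x * w)‖ ≤ ‖t‖) →
        (∀ x ∈ ({b, i, j, k} : Set (Fin n)),
          ‖N x - (G x + B x * w + t ^ m * (Mu (e b) (e x) (A x) m * w +
            Nu (e b) (e x) (A x) (g x) m) - Sg (e b) (e x) * p *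
            ((PowerSeries.coeff 1 U : ℚ) : K))‖ ≤ ‖t‖ ^ (m + 1)) →
        Tame p (κ b * N b / (κ i * N i)) → Tame p (κ j * N j / (κ k * N k)) →
        (κ b * N b / (κ i * N i)) ^ M3 = 1 := by
      have nz : ∀ (w : K) (N : Fin n → K) (t : K), ‖t‖ < 1 →
          (∀ x ∈ ({b, i, j, k} : Set (Fin n)), ‖G x + B x * w‖ = 1) →
          (∀ x ∈ ({b, i, j, k} : Set (Fin n)), ‖N x - (G x + B x * w)‖ ≤ ‖t‖) →
          ∀ x ∈ ({b, i, j, k} : Set (Fin n)), κ x * N x ≠ 0 := by
        intro w N t ht hl hN x hx h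
        have h1 := one_of_close ((hN x hx).trans_lt ht) (hl x hx)
        have h2 : ‖κ x * N x‖ = 1 := by rw [norm_mul, κn, h1, one_mul]
        rw [h, norm_zero] at h2
        exact zero_ne_one h2
      rcases hmE.lt_or_eq with hlt | heq
      · obtain ⟨r, hr⟩ := h3 m hm1 hlt cj ck (hmP hlt)
        obtain ⟨R, hR⟩ := gnr K _ ⟨r, hr.ge⟩
        obtain ⟨M, hM, hM'⟩ := tf wtm hp hK
          (R.image (fun c => κ b * (G b + B b * c) / (κ i * (G i + B i * c))))
        refine ⟨M, hM, ?_⟩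
        intro t w N htE ht1 ht0 hw hwd hl hN hN2 hT1 hT2
        have hNz := nz w N t ht1 hl hN
        have hN3 : ∀ x ∈ ({b, i, j, k} : Set (Fin n)),
            ‖N x - (G x + B x * w + t ^ m * (Mu (e b) (e x) (A x) m * w +
              Nu (e b) (e x) (A x) (g x) m))‖ ≤ ‖t‖ ^ (m + 1) := by
          intro x hx
          have h1 := hN2 x hx
          have h2 : ‖(Sg (e b) (e x) : K) * p * ((PowerSeries.coeff 1 U : ℚ) : K)‖ ≤
              ‖t‖ ^ (m + 1) := by
            rw [norm_mul, norm_mul, hpK, ← htE]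
            calc ‖(Sg (e b) (e x) : K)‖ * ‖t‖ ^ e b * ‖((PowerSeries.coeff 1 U : ℚ) : K)‖
                ≤ 1 * ‖t‖ ^ e b * 1 := by
                  apply mul_le_mul _ hu1 (norm_nonneg _) (by positivity)
                  exact mul_le_mul_of_nonneg_right sg_le (by positivity)
              _ = ‖t‖ ^ e b := by ring
              _ ≤ ‖t‖ ^ (m + 1) := pow_le_pow_of_le_one ht0.le ht1.le (by omega)
          have h3 := nsub h1 h2
          have e1 : N x - (G x + B x * w + t ^ m * (Mu (e b) (e x) (A x) m * w +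
              Nu (e b) (e x) (A x) (g x) m) - Sg (e b) (e x) * p *
              ((PowerSeries.coeff 1 U : ℚ) : K)) -
              Sg (e b) (e x) * p * ((PowerSeries.coeff 1 U : ℚ) : K) =
              N x - (G x + B x * w + t ^ m * (Mu (e b) (e x) (A x) m * w +
                Nu (e b) (e x) (A x) (g x) m)) := by ring
          rw [e1] at h3
          exact h3
        have hx := xlo p hp hp5 K hK (fun s => G (![b, i, j, k] s)) (fun s => B (![b, i, j, k] s))
          (fun s => Mu (e b) (e (![b, i, j, k] s)) (A (![b, i, j, k] s)) m)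
          (fun s => Nu (e b) (e (![b, i, j, k] s)) (A (![b, i, j, k] s)) (g (![b, i, j, k] s)) m)
          (fun s => κ (![b, i, j, k] s)) (fun s => N (![b, i, j, k] s)) w t
          (κ b * N b / (κ i * N i)) (κ j * N j / (κ k * N k)) m (e b) hm1 hlt htE
          (fun s => hG _) (fun s => hB _)
          (fun s => mu_le hp hK (hCd _) hE hEp (hep _) m)
          (fun s => nu_le hp hK (hCd _) hE hEp (hep _) m) (fun s => hκ _) hw.le
          (cases4 (P := fun x => ‖G x + B x * w‖ = 1) hl)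
          (cases4 (P := fun x => ‖N x - (G x + B x * w + t ^ m * (Mu (e b) (e x) (A x) m * w +
              Nu (e b) (e x) (A x) (g x) m))‖ ≤ ‖t‖ ^ (m + 1)) hN3) hT1 hT2
          (by
            show κ b * N b = κ b * N b / (κ i * N i) * (κ i * N i)
            rw [div_mul_cancel₀ _ (hNz i mi)])
          (by
            show κ j * N j = κ j * N j / (κ k * N k) * (κ k * N k)
            rw [div_mul_cancel₀ _ (hNz k mk)])
        have hx2 : ‖(Hx (fun s => Gf (e b) (e (![b, i, j, k] s)) (g (![b, i, j, k] s)))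
            (fun s => Bf (e b) (e (![b, i, j, k] s)) (A (![b, i, j, k] s)))
            (fun s => Mu (e b) (e (![b, i, j, k] s)) (A (![b, i, j, k] s)) m)
            (fun s => Nu (e b) (e (![b, i, j, k] s)) (A (![b, i, j, k] s))
              (g (![b, i, j, k] s)) m)).eval w‖ ≤ ‖t‖ := by
          have e1 : (fun s => G (![b, i, j, k] s)) =
              (fun s => Gf (e b) (e (![b, i, j, k] s)) (g (![b, i, j, k] s))) := by
            funext s; exact hGd _
          have e2 : (fun s => B (![b, i, j, k] s)) =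
              (fun s => Bf (e b) (e (![b, i, j, k] s)) (A (![b, i, j, k] s))) := by
            funext s; exact hBd _
          rw [← e1, ← e2]
          exact hx
        obtain ⟨c, hc, hwc⟩ := hR w hw.le (hx2.trans_lt ht1)
        apply hM' _ hT1
        refine ⟨_, Finset.mem_image_of_mem _ hc, ?_⟩
        have cl : ∀ x ∈ ({b, i, j, k} : Set (Fin n)), ‖G x + B x * c‖ = 1 ∧
            ‖N x - (G x + B x * c)‖ < 1 := by
          intro x hx'
          have h1 : ‖B x * (w - c)‖ < 1 := by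
            rw [norm_mul]
            calc ‖B x‖ * ‖w - c‖ ≤ 1 * ‖w - c‖ := mul_le_mul_of_nonneg_right (hB x).1 (norm_nonneg _)
              _ < 1 := by rw [one_mul]; exact hwc
          constructor
          · apply one_of_close (y := G x + B x * w) _ (hl x hx')
            have e1 : G x + B x * c - (G x + B x * w) = -(B x * (w - c)) := by ring
            rw [e1, norm_neg]
            exact h1
          · have e1 : N x - (G x + B x * c) = (N x - (G x + B x * w)) + B x * (w - c) := by ring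
            rw [e1]
            exact naddlt ((hN x hx').trans_lt ht1) h1
        exact quot_lt (κn b) (κn i) (cl b mb).2 (cl i mi).2 (cl b mb).1 (cl i mi).1
      · obtain ⟨M, hM, hM'⟩ := xra p hp hp5 K hK (fun s => G (![b, i, j, k] s))
          (fun s => B (![b, i, j, k] s))
          (fun s => Mu (e b) (e (![b, i, j, k] s)) (A (![b, i, j, k] s)) (e b) -
            Sg (e b) (e (![b, i, j, k] s)) * ((PowerSeries.coeff 1 U : ℚ) : K))
          (fun s => Nu (e b) (e (![b, i, j, k] s)) (A (![b, i, j, k] s)) (g (![b, i, j, k] s))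
            (e b))
          (fun s => κ (![b, i, j, k] s)) (((p : ℝ) ^ (-(1 : ℝ) / (2 * (e b : ℝ)))) ^ 2)
          (fun s => hG _) (fun s => hB _)
          (fun s => nsub (mu_le hp hK (hCd _) hE hEp (hep _) _) (by
            rw [norm_mul]
            calc ‖(Sg (e b) (e (![b, i, j, k] s)) : K)‖ * ‖((PowerSeries.coeff 1 U : ℚ) : K)‖
                ≤ 1 * 1 := mul_le_mul sg_le hu1 (norm_nonneg _) zero_le_one
              _ = 1 := one_mul 1))
          (fun s => nu_le hp hK (hCd _) hE hEp (hep _) _) (fun s => hκ _)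
          (by
            show ‖B b‖ = 1
            rw [(Geq b rfl).2, hA1, norm_one])
          dbi dbj dbk djk (by
            have hr : (p : ℝ) ^ (-(1 : ℝ) / (2 * (e b : ℝ))) < 1 := by
              apply Real.rpow_lt_one_of_one_lt_of_neg hpR
              apply div_neg_of_neg_of_pos (by norm_num)
              have : (0 : ℝ) < (e b : ℝ) := by exact_mod_cast hE
              positivity
            have hr0 : 0 < (p : ℝ) ^ (-(1 : ℝ) / (2 * (e b : ℝ))) :=
              Real.rpow_pos_of_pos (by linarith) _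
            exact pow_lt_one₀ hr0.le hr (by norm_num))
        refine ⟨M, hM, ?_⟩
        intro t w N htE ht1 ht0 hw hwd hl hN hN2 hT1 hT2
        have hNz := nz w N t ht1 hl hN
        obtain ⟨htv, _⟩ := tsize thb hp hp5 hE h6 ht0.le htE
        have hw0 : w ≠ 0 := by intro h; rw [h, norm_zero] at hw; exact zero_ne_one hw
        have ht00 : t ≠ 0 := by intro h; rw [h, norm_zero] at ht0; exact lt_irrefl _ ht0
        have htw : t ^ e b = (p : K) / w := by
          rw [hwd]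
          field_simp
        have hN3 : ∀ x ∈ ({b, i, j, k} : Set (Fin n)),
            ‖N x - (G x + B x * w + p * ((Mu (e b) (e x) (A x) (e b) -
              Sg (e b) (e x) * ((PowerSeries.coeff 1 U : ℚ) : K)) +
              Nu (e b) (e x) (A x) (g x) (e b) / w))‖ ≤
              ((p : ℝ) ^ (-(1 : ℝ) / (2 * (e b : ℝ)))) ^ 2 * (p : ℝ)⁻¹ := by
          intro x hx
          have h1 := hN2 x hx
          rw [← htv, ← htE]
          rw [heq] at h1
          have e1 : G x + B x * w + t ^ e b * (Mu (e b) (e x) (A x) (e b) * w +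
              Nu (e b) (e x) (A x) (g x) (e b)) - Sg (e b) (e x) * p *
              ((PowerSeries.coeff 1 U : ℚ) : K) =
              G x + B x * w + p * ((Mu (e b) (e x) (A x) (e b) -
              Sg (e b) (e x) * ((PowerSeries.coeff 1 U : ℚ) : K)) +
              Nu (e b) (e x) (A x) (g x) (e b) / w) := by
            rw [htw]
            field_simp
            ring
          rw [e1, pow_succ, mul_comm (‖t‖ ^ e b) ‖t‖] at h1
          exact h1
        exact hM' (fun s => N (![b, i, j, k] s)) w (κ b * N b / (κ i * N i))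
          (κ j * N j / (κ k * N k)) hw
          (cases4 (P := fun x => ‖G x + B x * w‖ = 1) hl)
          (cases4 (P := fun x => ‖N x - (G x + B x * w + p * ((Mu (e b) (e x) (A x) (e b) -
              Sg (e b) (e x) * ((PowerSeries.coeff 1 U : ℚ) : K)) +
              Nu (e b) (e x) (A x) (g x) (e b) / w))‖ ≤
              ((p : ℝ) ^ (-(1 : ℝ) / (2 * (e b : ℝ)))) ^ 2 * (p : ℝ)⁻¹) hN3) hT1 hT2
          (by
            show κ b * N b = κ b * N b / (κ i * N i) * (κ i * N i)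
            rw [div_mul_cancel₀ _ (hNz i mi)])
          (by
            show κ j * N j = κ j * N j / (κ k * N k) * (κ k * N k)
            rw [div_mul_cancel₀ _ (hNz k mk)])
    refine ⟨p * p * (M2 * M3), ?_⟩
    have hM23 : 1 ≤ M2 * M3 := Nat.mul_pos hM2 hM3
    intro t q ht0 ht1 htE hAt hDbi hDjk
    obtain ⟨htv, ht6⟩ := tsize thb hp hp5 hE h6 ht0.le htE
    obtain ⟨w, N, hw, hwd, hN⟩ := pt t q ht0 ht1 htE hAt
    have hq0 : ∀ x ∈ ({b, i, j, k} : Set (Fin n)), q x ≠ 0 := by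
      intro x hx h
      have := (hAt x hx).q0
      rw [h, norm_zero] at this
      exact lt_irrefl _ this
    have ze : ∀ v ∈ ({b, i, j, k} : Set (Fin n)), ∀ x ∈ ({b, i, j, k} : Set (Fin n)),
        ∀ y ∈ ({b, i, j, k} : Set (Fin n)), ∀ u ∈ ({b, i, j, k} : Set (Fin n)),
        x ≠ v → y ≠ v → u ≠ v → e v = e b → ‖G v + B v * w‖ < 1 →
        ‖G x * B y - G y * B x‖ = 1 → Dep (q x) (q y) → Dep (q v) (q u) →
        Bd (p * p * (M2 * M3)) (q x) (q y) := by
      intro v hv x hx y hy u hu hxv hyv huv hev hlv hxy hD1 hD2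
      have hBv : ‖B v‖ = 1 := by rw [(Geq v hev).2]; exact an v hev.symm
      have hGv : ‖G v‖ = 1 := by rw [(Geq v hev).1]; exact gn v
      have hB0 : B v ≠ 0 := by intro h; rw [h, norm_zero] at hBv; exact zero_ne_one hBv
      have dv : ∀ x, x ≠ v → ‖G v * B x - G x * B v‖ = 1 := fun x hx =>
        hd v x (Ne.symm hx) (fun h => by omega) (fun h => by omega)
      have un : ∀ x, x ≠ v → ‖G x + B x * w‖ = 1 := by
        intro x hx
        have h1 : ‖B v * (G x + B x * w) - (-(G v * B x - G x * B v))‖ < 1 := by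
          have e1 : B v * (G x + B x * w) - (-(G v * B x - G x * B v)) =
              B x * (G v + B v * w) := by ring
          rw [e1, norm_mul]
          calc ‖B x‖ * ‖G v + B v * w‖ ≤ 1 * ‖G v + B v * w‖ :=
                mul_le_mul_of_nonneg_right (hB x).1 (norm_nonneg _)
            _ < 1 := by rw [one_mul]; exact hlv
        have h2 := one_of_close h1 (by rw [norm_neg]; exact dv x hx)
        rw [norm_mul, hBv, one_mul] at h2
        exact h2
      have hNx := one_of_close ((hN x hx).2.1.trans_lt ht1) (un x hxv)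
      have hNy := one_of_close ((hN y hy).2.1.trans_lt ht1) (un y hyv)
      have hro := ro_pair xdp dep hp hK hE (κn x) (κn y) hNx hNy (hq0 x hx) (hq0 y hy)
        (hN x hx).1 (hN y hy).1 hD1
      have hdQ := (xdp K (q v) (q u) (κ v * N v / p) (κ u * N u / p) _ _ _ _ (hq0 v hv) (hq0 u hu)
        (rx_pos hE) (sx_pos hE) (rx_pos hE) (sx_pos hE) (hN v hv).1 (hN u hu).1).1 hD2
      have Lxe : ∀ x, x ≠ v → Lx e A g v x = B x * B v / (G x * B v - B x * G v) := by
        intro x hx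
        unfold Lx
        rcases lt_trichotomy (e x) (e b) with h | h | h
        · rw [if_pos (by omega), (Glt x h).2, zero_mul, zero_div]
        · rw [if_neg (by omega), if_pos (by omega), (Geq x h).1, (Geq x h).2, (Geq v hev).1,
            (Geq v hev).2]
        · rw [if_neg (by omega), if_neg (by omega), (Ggt x h).1, (Ggt x h).2, (Geq v hev).1,
            (Geq v hev).2, zero_mul, one_mul, one_mul, zero_sub, div_neg]
      have dz : ∀ x, x ≠ v → G x * B v - B x * G v ≠ 0 := by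
        intro x hx h
        have h1 := dv x hx
        have e1 : G v * B x - G x * B v = -(G x * B v - B x * G v) := by ring
        rw [e1, h, neg_zero, norm_zero] at h1
        exact zero_ne_one h1
      have Lne : Lx e A g v x ≠ Lx e A g v y := by
        rw [Lxe x hxv, Lxe y hyv]
        intro h
        rw [div_eq_div_iff (dz x hxv) (dz y hyv)] at h
        have e1 : B v * B v * (G x * B y - G y * B x) = 0 := by linear_combination -h
        rcases mul_eq_zero.mp e1 with h2 | h2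
        · exact hB0 (by simpa using h2)
        · rw [h2, norm_zero] at hxy
          exact zero_ne_one hxy
      have hg := h2 v x y u hev hxv hyv huv Lne
      rw [Lxe x hxv, Lxe y hyv, Lxe u huv] at hg
      have hz := xze p hp h11 K hK Log hLog (G v) (G x) (G y) (G u) (B v) (B x) (B y) (B u) (κ v)
        (κ x) (κ y) (κ u) (N v) (N x) (N y) (N u) w ‖t‖ ht6 ⟨hG v, hGv⟩ (hG x) (hG y) (hG u)
        ⟨hB v, hBv⟩ (hB x) (hB y) (hB u) (hκ v) (hκ x) (hκ y) (hκ u) hw.le hlv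
        (hN v hv).2.1 (hN x hx).2.1 (hN y hy).2.1 (hN u hu).2.1 hro hdQ (dv x hxv) (dv y hyv)
        (dv u huv) hxy hg
      have hb := hfin _ hro ⟨_, Finset.mem_image_of_mem _ (Finset.mem_univ (v, x, y)), hz.le⟩
      exact bd_pair xdp hp hE hEp (hep x) (hep y) (hq0 x hx) (hq0 y hy) (hN x hx).1 (hN y hy).1
        hM23 (by rw [pow_mul, hb, one_pow])
    by_cases hz : ∃ v ∈ ({b, i, j, k} : Set (Fin n)), ‖G v + B v * w‖ < 1
    · obtain ⟨v, hv, hlv⟩ := hz
      have hev : e v = e b := by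
        rcases lt_trichotomy (e v) (e b) with h | h | h
        · rw [(Glt v h).1, (Glt v h).2, zero_mul, add_zero, gn] at hlv
          exact absurd hlv (lt_irrefl _)
        · exact h
        · rw [(Ggt v h).1, (Ggt v h).2, one_mul, zero_add, hw] at hlv
          exact absurd hlv (lt_irrefl _)
      have vi : v = i → (Bd (p * p * (M2 * M3)) (q b) (q i) ∨ Bd (p * p * (M2 * M3)) (q j) (q k) ∨
          (i = j ∧ Bd (p * p * (M2 * M3)) (q b) (q k))) := by
        intro hvi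
        subst hvi
        by_cases hij : v = j
        · right; right
          refine ⟨hij, ze v mi b mb k mk b mb hbi (Ne.symm hik) hbi hev hlv dbk ?_
            (dep_symm hDbi)⟩
          rw [← hij] at hDjk
          exact dep_trans hDbi hDjk
        · right; left
          exact ze v mi j mj k mk b mb (Ne.symm hij) (Ne.symm hik) hbi hev hlv djk hDjk
            (dep_symm hDbi)
      rcases hv with rfl | rfl | rfl | hv
      · right; left
        exact ze v mb j mj k mk i mi (Ne.symm hbj) (Ne.symm hbk) (Ne.symm hbi) hev hlv djk hDjk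
          hDbi
      · exact vi rfl
      · by_cases hij : i = v
        · exact vi hij.symm
        · left
          exact ze v mj b mb i mi k mk hbj hij (Ne.symm hjk) hev hlv dbi hDbi hDjk
      · have hvk : v = k := hv
        subst hvk
        left
        exact ze v mk b mb i mi j mj hbk hik hjk hev hlv dbi hDbi (dep_symm hDjk)
    · have hl : ∀ x ∈ ({b, i, j, k} : Set (Fin n)), ‖G x + B x * w‖ = 1 := by
        intro x hx
        have h1 : ¬ ‖G x + B x * w‖ < 1 := fun h => hz ⟨x, hx, h⟩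
        have h2 : ‖G x + B x * w‖ ≤ 1 := by
          apply nadd (hG x).1
          rw [norm_mul, hw, mul_one]
          exact (hB x).1
        exact le_antisymm h2 (not_lt.mp h1)
      have hNn : ∀ x ∈ ({b, i, j, k} : Set (Fin n)), ‖N x‖ = 1 := fun x hx =>
        one_of_close ((hN x hx).2.1.trans_lt ht1) (hl x hx)
      have r1 := ro_pair xdp dep hp hK hE (κn b) (κn i) (hNn b mb) (hNn i mi) (hq0 b mb)
        (hq0 i mi) (hN b mb).1 (hN i mi).1 hDbi
      have r2 := ro_pair xdp dep hp hK hE (κn j) (κn k) (hNn j mj) (hNn k mk) (hq0 j mj)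
        (hq0 k mk) (hN j mj).1 (hN k mk).1 hDjk
      obtain ⟨T1, T2⟩ := xwi p hp (by omega) K hK (G b) (G i) (G j) (G k) (B b) (B i) (B j) (B k)
        (κ b) (κ i) (κ j) (κ k) (N b) (N i) (N j) (N k) w ‖t‖ (ht6.trans_le th63) (hG b) (hG i)
        (hG j) (hG k) (hB b) (hB i) (hB j) (hB k) (hκ b) (hκ i) (hκ j) (hκ k) hw.le (hl b mb)
        (hl i mi) (hl j mj) (hl k mk) (hN b mb).2.1 (hN i mi).2.1 (hN j mj).2.1 (hN k mk).2.1
        r1 r2 dbi dbj dbk djk
      have hb := hM3b t w N htE ht1 ht0 hw hwd hl (fun x hx => (hN x hx).2.1)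
        (fun x hx => (hN x hx).2.2 (hl x hx)) T1 T2
      left
      exact bd_pair xdp hp hE hEp (hep b) (hep i) (hq0 b mb) (hq0 i mi) (hN b mb).1 (hN i mi).1
        hM23 (by rw [mul_comm M2 M3, pow_mul, hb, one_pow])

end Pool.Agent.ZPK.H19
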